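import Pool.Agent.Q161.HZ.Main
import Pool.Agent.Q161.HZ.TaskComp
import Pool.Agent.Q161.HZ.TaskDist
import Pool.Agent.Q161.HZ.TaskFact
import Pool.Agent.Q161.HZ.TaskInv
import Pool.Agent.Q161.HZ.TaskKummer
import Pool.Agent.Q161.HZ.TaskLin
import Pool.Agent.Q161.HZ.TaskLow
import Pool.Agent.Q161.HZ.TaskNonInt
import Pool.Agent.Q161.HZ.TaskPoch
import Pool.Agent.Q161.HZ.TaskShift
import Pool.Agent.Q161.HZ.TaskSmall

set_option autoImplicit false

/-!
# Zero bounds for terminating hypergeometric polynomials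

For all `p, q ≥ 0` (in particular for `p ≥ q`) and all admissible parameters, all zeros of
`P_n(z) = {}_{p+2}F_q(-n, n+λ, a_1, …, a_p; b_1, …, b_q; z)` are at most `M n^(q-p-1)` in absolute
value.  The proof uses the composition theorem of Grace and Szegő for discs with centre zero, applied
to the multipliers `(n+λ)_j`, `(a)_j` and `1/(b)_j`.
-/

open Polynomial Finset

namespace Pool.Agent.Results.MP_d36490_an.AllZerosBounded

/-- `(w)_k = w (w + 1) ⋯ (w + k - 1)` -/
noncomputable def rising (w : ℂ) (k : ℕ) : ℂ := ∏ i ∈ range k, (w + i)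

/-- the polynomial
`P_n = ∑_{j ≤ n} (-n)_j (n+λ)_j (a_1)_j ⋯ (a_p)_j / ((b_1)_j ⋯ (b_q)_j) X^j / j!` -/
noncomputable def P {p q : ℕ} (lam : ℂ) (a : Fin p → ℂ) (b : Fin q → ℂ) (n : ℕ) : ℂ[X] :=
  ∑ j ∈ range (n + 1), C (rising (-n) j * rising (n + lam) j * (∏ k, rising (a k) j) /
    (∏ k, rising (b k) j) / (j.factorial : ℂ)) * X ^ j

/-- the number `A_n = (-1)^n (n+λ)_n (a_1)_n ⋯ (a_p)_n / ((b_1)_n ⋯ (b_q)_n)` -/
noncomputable def A {p q : ℕ} (lam : ℂ) (a : Fin p → ℂ) (b : Fin q → ℂ) (n : ℕ) : ℂ :=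
  (-1) ^ n * rising (n + lam) n * (∏ k, rising (a k) n) / ∏ k, rising (b k) n

lemma coeff_P {p q : ℕ} (lam : ℂ) (a : Fin p → ℂ) (b : Fin q → ℂ) (n : ℕ) :
    (P lam a b n).coeff n = A lam a b n := by
  unfold P A
  rw [finsetSum_coeff, Finset.sum_eq_single n]
  · rw [coeff_C_mul, coeff_X_pow, if_pos rfl, mul_one]
    have h : rising (-n) n = (-1) ^ n * (n.factorial : ℂ) := by
      have := Pool.Agent.Q161.HZ.poch_neg n n
      rw [Nat.descFactorial_self] at this
      exact this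
    have hf : (n.factorial : ℂ) ≠ 0 := by exact_mod_cast n.factorial_ne_zero
    rw [h]
    have e : (-1) ^ n * (n.factorial : ℂ) * rising (n + lam) n * (∏ k, rising (a k) n) /
        (∏ k, rising (b k) n) / (n.factorial : ℂ) =
        ((-1) ^ n * rising (n + lam) n * (∏ k, rising (a k) n) / (∏ k, rising (b k) n)) *
          ((n.factorial : ℂ) / (n.factorial : ℂ)) := by
      simp only [div_eq_mul_inv]; ring
    rw [e, div_self hf, mul_one]
  · intro j _ hj
    rw [coeff_C_mul, coeff_X_pow, if_neg hj.symm, mul_zero]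
  · intro h; exact absurd (mem_range.2 (Nat.lt_succ_self n)) h

lemma natDegree_P {p q : ℕ} (lam : ℂ) (a : Fin p → ℂ) (b : Fin q → ℂ) (n : ℕ)
    (h : A lam a b n ≠ 0) : (P lam a b n).natDegree = n := by
  apply le_antisymm
  · unfold P
    refine natDegree_sum_le_of_forall_le _ _ fun j hj => ?_
    refine (natDegree_C_mul_X_pow_le _ _).trans ?_
    have := mem_range.1 hj
    omega
  · apply le_natDegree_of_ne_zero
    rw [coeff_P]; exact h

/-- **Zero bounds for terminating hypergeometric polynomials.** For all `p, q`, all complex `λ` and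
all complex `a_k`, `b_k` none of which is in `{0, -1, -2, …}` there is `M` such that for all `n ≥ 1`
with `A_n ≠ 0` the polynomial `P_n` is `A_n ∏ (X - z)` over the multiset of its `n` zeros `z`, and
all of them satisfy `|z| ≤ M n^(q-p-1)`. -/
theorem result (p q : ℕ) (lam : ℂ) (a : Fin p → ℂ) (b : Fin q → ℂ)
    (ha : ∀ k, ∀ m : ℕ, a k ≠ -m) (hb : ∀ k, ∀ m : ℕ, b k ≠ -m) :
    ∃ M : ℝ, ∀ n : ℕ, 1 ≤ n → A lam a b n ≠ 0 →
      P lam a b n = C (A lam a b n) * ((P lam a b n).roots.map fun z => X - C z).prod ∧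
      (P lam a b n).roots.card = n ∧
      ∀ z ∈ (P lam a b n).roots, ‖z‖ ≤ M * (n : ℝ) ^ ((q : ℤ) - p - 1) := by
  have hC := Pool.Agent.Q161.HZ.taskComp
  have hL := Pool.Agent.Q161.HZ.taskLin
  have hD := Pool.Agent.Q161.HZ.taskDist
  have hN := Pool.Agent.Q161.HZ.taskNonInt (Pool.Agent.Q161.HZ.taskLow hD)
    Pool.Agent.Q161.HZ.taskKummer
  have hP := Pool.Agent.Q161.HZ.taskPoch hC hL hD Pool.Agent.Q161.HZ.taskFact hN
  have hS := Pool.Agent.Q161.HZ.taskShift hC hL hP Pool.Agent.Q161.HZ.taskSmall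
  obtain ⟨M, hM⟩ := Pool.Agent.Q161.HZ.main hC Pool.Agent.Q161.HZ.taskInv hP hS p q lam a b ha hb
  refine ⟨M, fun n hn hA => ?_⟩
  have hdeg := natDegree_P lam a b n hA
  have hlead : (P lam a b n).leadingCoeff = A lam a b n := by
    unfold leadingCoeff; rw [hdeg, coeff_P]
  refine ⟨?_, ?_, fun z hz => ?_⟩
  · have := (IsAlgClosed.splits (P lam a b n)).eq_prod_roots
    rw [hlead] at this
    exact this
  · have := (IsAlgClosed.splits (P lam a b n)).natDegree_eq_card_roots
    rw [← this, hdeg]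
  · have hne : rising (n + lam) n ≠ 0 := by
      intro h0; apply hA; unfold A; rw [h0]; simp
    apply hM n hn hne z
    have h1 : (P lam a b n).eval z = 0 := (mem_roots'.1 hz).2
    rw [← h1]
    unfold P
    rw [eval_finsetSum]
    refine Finset.sum_congr rfl fun j _ => ?_
    simp only [eval_mul, eval_C, eval_pow, eval_X]
    show Pool.Agent.Q161.HZ.poch (-n) j * Pool.Agent.Q161.HZ.poch (n + lam) j *
        (∏ k, Pool.Agent.Q161.HZ.poch (a k) j) /
        (∏ k, Pool.Agent.Q161.HZ.poch (b k) j) * (z ^ j / (j.factorial : ℂ)) =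
        Pool.Agent.Q161.HZ.poch (-n) j * Pool.Agent.Q161.HZ.poch (n + lam) j *
        (∏ k, Pool.Agent.Q161.HZ.poch (a k) j) /
        (∏ k, Pool.Agent.Q161.HZ.poch (b k) j) / (j.factorial : ℂ) * z ^ j
    ring

end Pool.Agent.Results.MP_d36490_an.AllZerosBounded
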